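import Pool.Agent.H8.TX.Targets
import Pool.Agent.H35.BKH.HLN

/-!
# Module LNY: heights along a rational curve
-/

set_option autoImplicit false

open MvPolynomial
open Pool.Agent.H12.ZD (pmap)
open Pool.Agent.H18.HIT Pool.Agent.H18.HX Pool.Agent.H18.VZ
open Pool.Agent.H8.ZA (HFam Const NA)
open Pool.Agent.H8.TD (lc dg Wsp Cop dh)
open Pool.Agent.H8.TX

namespace Pool.Agent.H35.TX

open Pool.Agent.H19.ZA (abv_int na_int)
open Pool.Agent.H10.TD (one_le_prodR le_prodR cn one_le_cn na_sum eval_le_cn an an_nonneg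
  eval_le_an cn_const log_abs)
open Pool.Agent.H35.BKH (bezG const_prodG na_bd ar_bd)

theorem le_mxn {L : Type} [Field L] (v : AbsoluteValue L ℝ) {n : ℕ} (x : Fin n → L) (i : Fin n) :
    v (x i) ≤ mxn v x := by
  unfold mxn
  exact (Finset.le_fold_max _).2 (Or.inr ⟨i, Finset.mem_univ i, le_rfl⟩)

theorem mxn_le {L : Type} [Field L] (v : AbsoluteValue L ℝ) {n : ℕ} {x : Fin n → L} {B : ℝ}
    (hB : 0 ≤ B) (h : ∀ i, v (x i) ≤ B) : mxn v x ≤ B := by
  unfold mxn
  exact (Finset.fold_max_le _).2 ⟨hB, fun i _ => h i⟩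

theorem mxn_nonneg {L : Type} [Field L] (v : AbsoluteValue L ℝ) {n : ℕ} (x : Fin n → L) :
    0 ≤ mxn v x := by
  unfold mxn
  exact (Finset.le_fold_max _).2 (Or.inl le_rfl)

/-- heights along a rational curve -/
theorem pf_LNY : T_LNY := by
  classical
  intro N D p hD hDc hroot K F
  obtain ⟨U, hU⟩ := bezG p hroot
  have har : ∀ i ∈ F.arch, ∃ B : ℝ, 1 ≤ B ∧ ∀ t : ℤ, t ≠ 0 → ∀ m : ℝ, 0 ≤ m →
      (∀ j, F.abv i ((p j).eval (t : Qb)) ≤ m) → |(t : ℝ)| ^ D ≤ B * m :=
    fun i hi => ar_bd (F.abv i) (F.arch_nat i hi) p U hU D hD hDc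
  choose! B hB1 hB using har
  have hCc : Const F fun i => (∏ j, cn (F.abv i) (p j)) * ∏ j, cn (F.abv i) (U j) :=
    (const_prodG F Finset.univ _ fun j => cn_const F (p j)).mul
      (const_prodG F Finset.univ _ fun j => cn_const F (U j))
  obtain ⟨Cn, hCn⟩ : ∃ Cn : F.ι → ℝ, Cn = fun i =>
    (∏ j, cn (F.abv i) (p j)) * ∏ j, cn (F.abv i) (U j) := ⟨_, rfl⟩
  rw [← hCn] at hCc
  obtain ⟨A, hA⟩ : ∃ A : F.ι → ℝ, A = fun i => ∑ j, an (F.abv i) (p j) := ⟨_, rfl⟩
  have hA0 : ∀ i, 0 ≤ A i := by
    intro i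
    rw [hA]
    exact Finset.sum_nonneg fun j _ => an_nonneg _ _
  obtain ⟨b, hb⟩ : ∃ b : F.ι → ℝ, b = fun i =>
    if i ∈ F.arch then Real.log (B i + A i) else Real.log (Cn i) := ⟨_, rfl⟩
  have hbfin : (Function.support b).Finite := by
    refine (F.arch.finite_toSet.union hCc.log_finite).subset fun i hi => ?_
    by_cases ha : i ∈ F.arch
    · exact Or.inl ha
    · right
      rw [hb, Function.mem_support] at hi
      simpa [ha] using hi
  refine ⟨∑ᶠ i, b i, fun t ht => ?_⟩
  have ht1 : (1 : ℝ) ≤ |(t : ℝ)| := by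
    have := Int.one_le_abs ht
    exact_mod_cast this
  have htD : 0 < |(t : ℝ)| ^ D := by positivity
  obtain ⟨y, hy⟩ : ∃ y : Fin (N + 1) → Qb, y = fun j => (p j).eval (t : Qb) := ⟨_, rfl⟩
  rw [← hy]
  have hyj : ∀ j, (p j).eval (t : Qb) = y j := fun j => by rw [hy]
  have hmxpos : ∀ i, 0 < mxn (F.abv i) y := by
    intro i
    obtain ⟨j, hj⟩ := hroot (t : Qb)
    rw [hyj] at hj
    exact ((F.abv i).pos hj).trans_le (le_mxn _ y j)
  obtain ⟨g, hg⟩ : ∃ g : F.ι → ℝ, g = fun i =>
    if i ∈ F.arch then Real.log (|(t : ℝ)| ^ D) else 0 := ⟨_, rfl⟩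
  have hgs : Function.support g ⊆ F.arch := by
    intro i hi
    by_contra hc
    apply hi
    rw [hg]
    exact if_neg hc
  have hgfin : (Function.support g).Finite := F.arch.finite_toSet.subset hgs
  have hgsum : (D : ℝ) * (F.arch.card * Real.log |(t : ℝ)|) = ∑ᶠ i, g i := by
    rw [finsum_eq_sum_of_support_subset g hgs, hg]
    rw [Finset.sum_congr rfl fun i hi => if_pos hi, Finset.sum_const, nsmul_eq_mul, Real.log_pow]
    ring
  have hle : ∀ i, |Real.log (mxn (F.abv i) y) - g i| ≤ b i := by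
    intro i
    rw [hg, hb]
    by_cases ha : i ∈ F.arch
    · simp only [if_pos ha]
      have h1 := hB i ha t ht (mxn (F.abv i) y) (mxn_nonneg _ _) fun j => by
        rw [hyj]
        exact le_mxn _ y j
      have h2 : mxn (F.abv i) y ≤ A i * |(t : ℝ)| ^ D := by
        refine mxn_le _ (mul_nonneg (hA0 i) htD.le) fun j => ?_
        rw [← hyj]
        refine (eval_le_an (F.abv i) (F.arch_nat i ha) (p j) D (hD j) t ht).trans ?_
        refine mul_le_mul_of_nonneg_right ?_ htD.le
        rw [hA]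
        exact Finset.single_le_sum (f := fun j => an (F.abv i) (p j))
          (fun _ _ => an_nonneg _ _) (Finset.mem_univ j)
      have hB1' := hB1 i ha
      refine log_abs (by linarith [hA0 i]) (hmxpos i) htD ?_ ?_
      · refine h2.trans (mul_le_mul_of_nonneg_right (by linarith) htD.le)
      · refine h1.trans (mul_le_mul_of_nonneg_right (by linarith [hA0 i]) (hmxpos i).le)
    · simp only [if_neg ha]
      have hna := F.na i ha
      have hp1 : 1 ≤ ∏ j, cn (F.abv i) (p j) := one_le_prodR _ _ fun _ _ => one_le_cn _ _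
      have hU1 : 1 ≤ ∏ j, cn (F.abv i) (U j) := one_le_prodR _ _ fun _ _ => one_le_cn _ _
      have h1 := na_bd (F.abv i) hna p U hU (t : Qb) (na_int _ hna t) (mxn (F.abv i) y)
        (mxn_nonneg _ _) fun j => by
          rw [hyj]
          exact le_mxn _ y j
      have h2 : mxn (F.abv i) y ≤ ∏ j, cn (F.abv i) (p j) := by
        refine mxn_le _ (by linarith) fun j => ?_
        rw [← hyj]
        refine (eval_le_cn _ hna (p j) (t : Qb) (na_int _ hna t)).trans ?_
        exact le_prodR _ (fun j => cn (F.abv i) (p j)) (fun _ _ => one_le_cn _ _)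
          (Finset.mem_univ j)
      have h3 := log_abs (x := 1) (B := Cn i) (hCc.one_le i) (hmxpos i) one_pos
        (by
          rw [mul_one, hCn]
          exact h2.trans (le_mul_of_one_le_right (by linarith) hU1))
        (by
          rw [hCn]
          simp only
          rw [mul_assoc]
          exact h1.trans (le_mul_of_one_le_left
            (mul_nonneg (by linarith) (hmxpos i).le) hp1))
      rwa [Real.log_one] at h3
  have hmxfin : (Function.support fun i => Real.log (mxn (F.abv i) y)).Finite := by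
    refine (hgfin.union hbfin).subset fun i hi => ?_
    by_contra hcon
    rw [Set.mem_union, not_or, Function.notMem_support, Function.notMem_support] at hcon
    have h1 := hle i
    rw [hcon.1, hcon.2, sub_zero] at h1
    exact hi (abs_eq_zero.1 (le_antisymm h1 (abs_nonneg _)))
  have hup : ∑ᶠ i, Real.log (mxn (F.abv i) y) ≤ ∑ᶠ i, (g i + b i) := by
    apply finsum_le_finsum' hmxfin ((hgfin.union hbfin).subset (Function.support_add _ _))
    intro i
    have := (abs_le.1 (hle i)).2
    linarith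
  have hlo : ∑ᶠ i, g i ≤ ∑ᶠ i, (Real.log (mxn (F.abv i) y) + b i) := by
    apply finsum_le_finsum' hgfin ((hmxfin.union hbfin).subset (Function.support_add _ _))
    intro i
    have := (abs_le.1 (hle i)).1
    linarith
  rw [finsum_add_distrib hgfin hbfin] at hup
  rw [finsum_add_distrib hmxfin hbfin] at hlo
  unfold hp
  rw [hgsum, abs_le]
  constructor <;> linarith

end Pool.Agent.H35.TX
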